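import Pool.Agent.U697.BM.NE3

/-!
# Project BM, package NE: there is no eigenfunction
-/

set_option autoImplicit false

open Set Filter Topology ComplexConjugate MeasureTheory

namespace Pool.Agent.U697.BM.NE

open Pool.Agent.U856.BM Relation
open scoped Classical

theorem states_finite {q : ℕ} (hq : 0 < q) : Finite {i : St // Al q i} := by
  have h1 : {w : ℂ | w ^ (2 * q) = 1}.Finite := by
    refine (Multiset.finite_toSet (Polynomial.nthRoots (2 * q) (1 : ℂ))).subset ?_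
    intro w hw
    exact (Polynomial.mem_nthRoots (by omega)).2 hw
  have h2 : {i : St | Al q i} = {w : ℂ | w ^ (2 * q) = 1} ×ˢ (Set.univ : Set Bool) := by
    ext i
    simp [Al]
  have h3 : {i : St | Al q i}.Finite := by
    rw [h2]; exact h1.prod Set.finite_univ
  exact h3.to_subtype

/-- the total length of the pieces of the exits through the cut -/
theorem total_len {a b v α : ℝ} {h q : ℕ} (hEX : S_EX) (hKZ : S_KZ) (hR : Rat a b v α h q)
    [Fintype {i : St // Al q i}] (M : ℤ)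
    (hM : ∀ i : St, Al q i → ∀ (m : ℤ) (u : ℝ), Cp a b v α i m u → m ∈ Finset.Icc (-M) M)
    (i : {i : St // Al q i}) (hD : 0 < dt (dd a b) (G i.1 (nS α 3))) :
    ∑ k : IX q M × Fin 5 × IX q M with (k.2.1 = 3 ∧ k.1.1 = i),
      (hi a b v α k.1.1.1 k.1.2.1 k.2.1 k.2.2.1.1 k.2.2.2.1 - lo a b v α k.1.1.1 k.1.2.1 k.2.1 k.2.2.1.1 k.2.2.2.1) =
      max (uu a b i.1 (vS a b v α 3)) (uu a b i.1 (vS a b v α (3 + 1))) -
      min (uu a b i.1 (vS a b v α 3)) (uu a b i.1 (vS a b v α (3 + 1))) := by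
  refine meas _ _ _ _ _ min_le_max ?_ ?_ ?_ ?_
  · intro k _
    exact lo_le_hi _ _ _ _ _ _ _ _ _
  · rintro ⟨⟨i', m⟩, j, t⟩ hk u h1 h2
    simp only [Finset.mem_filter, Finset.mem_univ, true_and] at hk
    obtain ⟨rfl, rfl⟩ := hk
    exact (piece_iff.1 ⟨h1, h2⟩).2.2.1.2
  · rintro ⟨⟨i1, ⟨m1, hm1⟩⟩, j1, ⟨⟨t1, ht1⟩, ⟨m1', hm1'⟩⟩⟩ hk ⟨⟨i2, ⟨m2, hm2⟩⟩, j2, ⟨⟨t2, ht2⟩, ⟨m2', hm2'⟩⟩⟩ hk2 hne
      u h1 h2 h3 h4
    simp only [Finset.mem_filter, Finset.mem_univ, true_and] at hk hk2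
    obtain ⟨rfl, rfl⟩ := hk
    obtain ⟨rfl, rfl⟩ := hk2
    obtain ⟨g1, g2, g3, g4⟩ := piece_iff.1 ⟨h1, h2⟩
    obtain ⟨g1', g2', g3', g4'⟩ := piece_iff.1 ⟨h3, h4⟩
    simp only at g1 g2 g4 g1' g2' g4'
    subst g1
    subst g1'
    have e1 := comp_unique hR.1 g2 g2'
    have e2 := comp_unique hR.1 g4 g4'
    subst e1
    subst e2
    exact hne rfl
  · refine Set.finite_empty.subset ?_
    rintro u ⟨h1, h2, h3⟩
    exfalso
    have hx : Exit a b v α i.1 u 3 := ⟨hD, h1, h2⟩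
    obtain ⟨g1, g2, -⟩ := (hEX a b v α h q hR i.1 u i.2).2.2.1 3 hx
    have hnK : ¬ K0 a b v α (i.1, u) := by
      intro hK
      have hs : Stq a b v α (i.1, u) (rs α 3 i.1, u - 2 * oS a b v 3 * cr (dd a b) (G i.1 (nS α 3))) :=
        ⟨3, hx, rfl⟩
      exact not_C0 hR.1 (hK (i.1, u) (Or.inl ReflTransGen.refl)) (hK _ (Or.inl (ReflTransGen.single hs)))
    obtain ⟨m, hm⟩ := exists_comp hKZ hR i.2 g1 hnK
    obtain ⟨g3, m', g4, g5⟩ := exists_piece hEX hKZ hR i.2 hx hnK hm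
    refine h3 ⟨((i, ⟨m, hM _ i.2 _ _ hm⟩), 3, (⟨rs α 3 i.1, g3⟩, ⟨m', hM _ g3 _ _ g4⟩)), ?_, g5⟩
    simp

theorem t_NE : S_EX → S_KZ → S_IT → S_NE := by
  intro hEX hKZ hIT a b v α h q hR k0 F hk0 hE
  have hok := hR.1
  have hL := L_pos hok
  have hLne := hL.ne'
  have hgen := hR.2.1
  have : Finite {i : St // Al q i} := states_finite hR.2.2.1.pos
  have : Fintype {i : St // Al q i} := Fintype.ofFinite _
  obtain ⟨M, hM⟩ := exists_M hok (states_finite hR.2.2.1.pos)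
  obtain ⟨n, hn⟩ := relation hEX hKZ hIT hR hE M hM
  have hSC : 0 < (Real.sin α)⁻¹ * (Real.cos α)⁻¹ := by
    obtain ⟨ha, ha2, hb, hb2, hv, hv2, hα, hα2⟩ := hok
    obtain ⟨hS, hC⟩ := sc_bounds hα hα2
    exact mul_pos (inv_pos.2 (by linarith)) (inv_pos.2 (by linarith))
  have hSCm : (Real.sin α)⁻¹ * (Real.cos α)⁻¹ ∈ RR a b := by
    obtain ⟨-, -, h3, h4⟩ := sc_mem hR
    exact mul_mem h3 h4
  have hlen : ∀ k : IX q M × Fin 5 × IX q M, ∃ x0 ∈ RR a b, ∃ x1 ∈ RR a b, √(a ^ 2 + b ^ 2) *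
      (hi a b v α k.1.1.1 k.1.2.1 k.2.1 k.2.2.1.1 k.2.2.2.1 - lo a b v α k.1.1.1 k.1.2.1 k.2.1 k.2.2.1.1 k.2.2.2.1) =
      x0 + x1 * v := fun k =>
    (hi_QQ hR k.1.1.2 _ _ k.2.2.1.2 _).sub (lo_QQ hR k.1.1.2 _ _ k.2.2.1.2 _)
  choose x0 hx0 x1 hx1 hlx using hlen
  -- the numbers `D`
  have hDm : ∀ (i : {i : St // Al q i}) (j : Fin 5),
      a * (G i.1 (nS α j)).re + b * (G i.1 (nS α j)).im ∈ RR a b := by
    intro i j
    obtain ⟨h1, h2⟩ := gn_mem hR i.2 j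
    exact add_mem (mul_mem (a_mem a b) h1) (mul_mem (b_mem a b) h2)
  set D : {i : St // Al q i} → Fin 5 → ℝ :=
    fun i j => a * (G i.1 (nS α j)).re + b * (G i.1 (nS α j)).im with hDdef
  have hDL : ∀ (i : {i : St // Al q i}) (j : Fin 5), D i j = √(a ^ 2 + b ^ 2) * dt (dd a b) (G i.1 (nS α j)) := by
    intro i j
    rw [Ldt hL]
  set oR : Fin 5 → ℝ := ![a, b, 0, 0, 0] with hoR
  have hoRm : ∀ j, oR j ∈ RR a b := by
    intro j
    have z0 : (0 : ℝ) ∈ RR a b := zero_mem _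
    fin_cases j
    · exact a_mem a b
    · exact b_mem a b
    · exact z0
    · exact z0
    · exact z0
  have hoS : ∀ j : Fin 5, oS a b v j = oR j + (if j = 3 then -v else 0) := by
    intro j
    fin_cases j <;> simp [oS, oR]
  set y0 : IX q M × Fin 5 × IX q M → ℝ := fun k => k0 * oR k.2.1 * D k.1.1 k.2.1 + n k * (a ^ 2 + b ^ 2) with hy0
  set y1 : IX q M × Fin 5 × IX q M → ℝ := fun k => if k.2.1 = 3 then -(k0 * D k.1.1 3) else 0 with hy1
  have hk0m : (k0 : ℝ) ∈ RR a b := natCast_mem (RR a b) k0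
  have hy0m : ∀ k, y0 k ∈ RR a b := by
    intro k
    exact add_mem (mul_mem (mul_mem hk0m (hoRm _)) (hDm _ _))
      (mul_mem (int_mem a b _) (add_mem (pow_mem (a_mem a b) 2) (pow_mem (b_mem a b) 2)))
  have hy1m : ∀ k, y1 k ∈ RR a b := by
    intro k
    simp only [hy1]
    split_ifs
    · exact neg_mem (mul_mem hk0m (hDm _ _))
    · exact zero_mem _
  have hrho : ∀ k : IX q M × Fin 5 × IX q M, √(a ^ 2 + b ^ 2) ^ 2 *
      (k0 * (2 * oS a b v k.2.1 * dt (dd a b) (G k.1.1.1 (nS α k.2.1))) / ll a b + n k) = y0 k + y1 k * v := by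
    intro k
    have e1 : √(a ^ 2 + b ^ 2) ^ 2 *
      (k0 * (2 * oS a b v k.2.1 * dt (dd a b) (G k.1.1.1 (nS α k.2.1))) / ll a b + n k) =
      k0 * oS a b v k.2.1 * (√(a ^ 2 + b ^ 2) * dt (dd a b) (G k.1.1.1 (nS α k.2.1))) +
        n k * √(a ^ 2 + b ^ 2) ^ 2 := by
      unfold ll
      field_simp
    rw [e1, ← hDL, L_sq, hoS]
    simp only [hy0, hy1]
    split_ifs with h3
    · rw [h3]; ring
    · ring
  have hsum : ∑ k : IX q M × Fin 5 × IX q M, (x0 k + x1 k * v) * (y0 k + y1 k * v) = 0 := by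
    have e : ∀ k : IX q M × Fin 5 × IX q M, (x0 k + x1 k * v) * (y0 k + y1 k * v) = √(a ^ 2 + b ^ 2) ^ 3 *
      ((hi a b v α k.1.1.1 k.1.2.1 k.2.1 k.2.2.1.1 k.2.2.2.1 - lo a b v α k.1.1.1 k.1.2.1 k.2.1 k.2.2.1.1 k.2.2.2.1) *
      (k0 * (2 * oS a b v k.2.1 * dt (dd a b) (G k.1.1.1 (nS α k.2.1))) / ll a b + n k)) := by
      intro k
      rw [← hlx, ← hrho]; ring
    rw [Finset.sum_congr rfl (fun k _ => e k), ← Finset.mul_sum, hn, mul_zero]
  have hpoly : (∑ k, x0 k * y0 k) + (∑ k, (x0 k * y1 k + x1 k * y0 k)) * v + (∑ k, x1 k * y1 k) * v ^ 2 = 0 := by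
    rw [← hsum, Finset.sum_mul, Finset.sum_mul, ← Finset.sum_add_distrib, ← Finset.sum_add_distrib]
    exact Finset.sum_congr rfl (fun k _ => by ring)
  obtain ⟨-, -, hc2⟩ := gen3 hgen
    (sum_mem (fun k _ => mul_mem (hx0 k) (hy0m k)))
    (sum_mem (fun k _ => add_mem (mul_mem (hx0 k) (hy1m k)) (mul_mem (hx1 k) (hy0m k))))
    (sum_mem (fun k _ => mul_mem (hx1 k) (hy1m k))) hpoly
  -- fibres
  have hfib : ∀ i : {i : St // Al q i}, ∑ k : IX q M × Fin 5 × IX q M with k.1.1 = i, x1 k * y1 k =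
      (∑ k : IX q M × Fin 5 × IX q M with (k.2.1 = 3 ∧ k.1.1 = i), x1 k) * (-(k0 * D i 3)) := by
    intro i
    rw [Finset.sum_mul, Finset.sum_filter, Finset.sum_filter]
    apply Finset.sum_congr rfl
    intro k _
    simp only [hy1]
    by_cases h1 : k.1.1 = i
    · by_cases h2 : k.2.1 = 3
      · rw [if_pos h1, if_pos h2, if_pos ⟨h2, h1⟩, h1]
      · rw [if_pos h1, if_neg h2, if_neg (fun h => h2 h.1), mul_zero]
    · rw [if_neg h1, if_neg (fun h => h1 h.2)]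
  have hpos : ∀ i : {i : St // Al q i}, 0 < dt (dd a b) (G i.1 (nS α 3)) →
      ∑ k : IX q M × Fin 5 × IX q M with k.1.1 = i, x1 k * y1 k < 0 := by
    intro i hD
    have h1 := total_len hEX hKZ hR M hM i hD
    have h2 := exit_len hok hD
    rw [← h1, Finset.mul_sum, Finset.sum_congr rfl (fun k _ => hlx k), Finset.sum_add_distrib,
      ← Finset.sum_mul] at h2
    have h3 : (∑ k : IX q M × Fin 5 × IX q M with (k.2.1 = 3 ∧ k.1.1 = i), x0 k) +
      ((∑ k : IX q M × Fin 5 × IX q M with (k.2.1 = 3 ∧ k.1.1 = i), x1 k) -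
        D i 3 * ((Real.sin α)⁻¹ * (Real.cos α)⁻¹)) * v + 0 * v ^ 2 = 0 := by
      simp only [hDdef]
      linarith
    obtain ⟨-, h4, -⟩ := gen3 hgen (sum_mem (fun k _ => hx0 k))
      (sub_mem (sum_mem (fun k _ => hx1 k)) (mul_mem (hDm i 3) hSCm)) (zero_mem _) h3
    have h5 : (∑ k : IX q M × Fin 5 × IX q M with (k.2.1 = 3 ∧ k.1.1 = i), x1 k) =
      D i 3 * ((Real.sin α)⁻¹ * (Real.cos α)⁻¹) := by linarith
    rw [hfib, h5]
    have h6 : 0 < D i 3 := by rw [hDL]; exact mul_pos hL hD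
    have h7 : (0 : ℝ) < k0 := by exact_mod_cast hk0
    have h8 : 0 < D i 3 * ((Real.sin α)⁻¹ * (Real.cos α)⁻¹) * (k0 * D i 3) :=
      mul_pos (mul_pos h6 hSC) (mul_pos h7 h6)
    linarith
  have hneg : ∀ i : {i : St // Al q i}, ¬ 0 < dt (dd a b) (G i.1 (nS α 3)) →
      ∑ k : IX q M × Fin 5 × IX q M with k.1.1 = i, x1 k * y1 k = 0 := by
    intro i hD
    rw [hfib]
    have h1 : ∑ k : IX q M × Fin 5 × IX q M with (k.2.1 = 3 ∧ k.1.1 = i), x1 k = 0 := by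
      apply Finset.sum_eq_zero
      intro k hk
      simp only [Finset.mem_filter, Finset.mem_univ, true_and] at hk
      have hV : ¬ Vd a b α k.1.1.1 k.2.1 k.2.2.1.1 := by
        intro hV
        apply hD
        have := hV.1
        rwa [hk.1, hk.2] at this
      have h2 := hlx k
      simp only [hi, lo, if_neg hV, sub_zero, mul_zero] at h2
      have h3 : x0 k + x1 k * v + 0 * v ^ 2 = 0 := by linarith
      exact (gen3 hgen (hx0 k) (hx1 k) (zero_mem _) h3).2.1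
    rw [h1, zero_mul]
  have hle : ∀ i : {i : St // Al q i}, ∑ k : IX q M × Fin 5 × IX q M with k.1.1 = i, x1 k * y1 k ≤ 0 := by
    intro i
    by_cases hD : 0 < dt (dd a b) (G i.1 (nS α 3))
    · exact (hpos i hD).le
    · exact (hneg i hD).le
  have hi1 : Al q ((1, true) : St) := by
    show (1 : ℂ) ^ (2 * q) = 1
    exact one_pow _
  have hD1 : 0 < dt (dd a b) (G ((1, true) : St) (nS α 3)) := by
    have h1 : 0 < √(a ^ 2 + b ^ 2) * dt (dd a b) (G ((1, true) : St) (nS α 3)) := by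
      rw [Ldt hL]
      obtain ⟨ha, ha2, hb, hb2, hv, hv2, hα, hα2⟩ := hok
      obtain ⟨hS, hC⟩ := sc_bounds hα hα2
      have hg : G ((1, true) : St) (nS α 3) = ⟨Real.sin α, Real.cos α⟩ := by
        simp only [G, if_true, one_mul]; rfl
      rw [hg]
      have h2 : 0 < a * Real.sin α := mul_pos (by linarith) (by linarith)
      have h3 : 0 < b * Real.cos α := mul_pos (by linarith) (by linarith)
      simp only
      linarith
    exact (mul_pos_iff_of_pos_left hL).1 h1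
  have htot : ∑ i : {i : St // Al q i}, ∑ k : IX q M × Fin 5 × IX q M with k.1.1 = i, x1 k * y1 k = 0 := by
    rw [Finset.sum_fiberwise]; exact hc2
  have hlt : ∑ i : {i : St // Al q i}, ∑ k : IX q M × Fin 5 × IX q M with k.1.1 = i, x1 k * y1 k <
      ∑ i : {i : St // Al q i}, (0 : ℝ) :=
    Finset.sum_lt_sum (fun i _ => hle i) ⟨⟨(1, true), hi1⟩, Finset.mem_univ _, hpos ⟨(1, true), hi1⟩ hD1⟩
  rw [htot, Finset.sum_const_zero] at hlt
  exact lt_irrefl _ hlt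

end Pool.Agent.U697.BM.NE
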