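import Pool.Agent.U856.BM.Stm1

/-!
# Project BM, package AV: the crossing segment avoids the rhombi
-/

set_option autoImplicit false

open Set Filter Topology ComplexConjugate

namespace Pool.Agent.U697.BM.AV

open Pool.Agent.U856.BM

/-- bounds for the sine and the cosine of the angle of the cut -/
theorem sc_bounds {α : ℝ} (h1 : 0.75 < α) (h2 : α < 0.82) :
    0.64 < Real.sin α ∧ Real.sin α < 0.82 ∧ 0.66 < Real.cos α ∧ Real.cos α ≤ 1 := by
  refine ⟨?_, ?_, ?_, Real.cos_le_one α⟩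
  · have h := Real.sin_gt_sub_cube (x := α) (by linarith)
    have h3 : α ^ 2 < 0.6724 := by nlinarith
    have h4 : α ^ 3 = α * α ^ 2 := by ring
    nlinarith
  · have h := Real.sin_lt (x := α) (by linarith)
    linarith
  · have h := Real.one_sub_sq_div_two_le_cos (x := α)
    have h3 : α ^ 2 < 0.6724 := by nlinarith
    linarith

/-- the linear bound on the rhombus -/
theorem rhomb {a b v S C p X Y : ℝ} (ha : 0 < a) (hb : 0 < b) (hS : 0 < S)
    (hab : a * S ≤ b * C) (hp : p * S = v) (h : |X| * S + |Y| * C ≤ v) :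
    -b * X + a * Y ≤ b * p ∧ -(b * p) ≤ -b * X + a * Y := by
  have hB : b * |X| + a * |Y| ≤ b * p := by
    have e4 : (b * |X| + a * |Y|) * S ≤ b * p * S := by
      have e6 : a * S * |Y| ≤ b * C * |Y| := mul_le_mul_of_nonneg_right hab (abs_nonneg _)
      have e7 : b * (|X| * S + |Y| * C) ≤ b * v := mul_le_mul_of_nonneg_left h hb.le
      have e8 : b * v = b * p * S := by rw [← hp]; ring
      linarith
    exact le_of_mul_le_mul_right e4 hS
  have h1 : b * X ≤ b * |X| := mul_le_mul_of_nonneg_left (le_abs_self X) hb.le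
  have h2 : b * (-|X|) ≤ b * X := mul_le_mul_of_nonneg_left (neg_abs_le X) hb.le
  have h3 : a * Y ≤ a * |Y| := mul_le_mul_of_nonneg_left (le_abs_self Y) ha.le
  have h4 : a * (-|Y|) ≤ a * Y := mul_le_mul_of_nonneg_left (neg_abs_le Y) ha.le
  constructor <;> linarith

theorem base {a b v S C p : ℝ} (ha : 0.99 < a) (ha2 : a < 1.01) (hb : 1.72 < b) (hb2 : b < 1.75)
    (hv : 0.1 < v) (hv2 : v < 0.11) (hS : 0.64 < S) (hS2 : S < 0.82) (hC : 0.66 < C) (hC2 : C ≤ 1)
    (hp : p * S = v) :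
    0 < p ∧ p < 0.172 ∧ a * S ≤ b * C ∧ b * C + a * S < 2.6 ∧ 0 < b * C + a * S ∧ 2.8 < 2 * b * (a - p) ∧
      1.7 < a * b := by
  have hp0 : 0 < p := by
    by_contra h
    push Not at h
    nlinarith
  have hp1 : p < 0.172 := by
    by_contra h
    push Not at h
    nlinarith
  have h1 : a * S < 1.01 * 0.82 := by nlinarith
  have h2 : 1.72 * 0.66 < b * C := by nlinarith
  have h3 : b * C < 1.75 := by nlinarith
  have h4 : 0 < a * S := by positivity
  refine ⟨hp0, hp1, by linarith, by linarith, by linarith, ?_, by nlinarith⟩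
  have : 1.72 * 0.818 < b * (a - p) := by nlinarith
  linarith

theorem small {s η n q κ : ℝ} (hs : 0 < s) (hη : 0 < η) (hn : 1 ≤ n) (hηn : η * n < 0.1)
    (hq : 2.8 < q) (hκ : κ < 2.6) (hκ0 : 0 < κ) (h : s * (q + 2 * (η * κ)) ≤ η * κ) :
    s < η ∧ s * n < 0.1 ∧ η < 0.1 := by
  have h1 : s * q ≤ η * κ := by
    have : 0 < s * (2 * (η * κ)) := by positivity
    linarith
  have h2 : s * 2.8 ≤ s * q := by nlinarith
  have h3 : η * κ ≤ η * 2.6 := by nlinarith
  have h4 : s < η := by linarith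
  refine ⟨h4, ?_, ?_⟩
  · have : s * n ≤ η * n := mul_le_mul_of_nonneg_right h4.le (by linarith)
    linarith
  · nlinarith

theorem xbounds {a p s η n C : ℝ} (ha : 0.99 < a) (ha2 : a < 1.01) (hp0 : 0 < p) (hp1 : p < 0.172)
    (hs : 0 < s) (hn : 1 ≤ n) (hsn : s * n < 0.1) (hη : 0 < η) (hη1 : η < 0.1) (hC : 0 < C) (hC2 : C ≤ 1)
    (hsη : s < η) :
    -0.9 < -p + η * C + s * (-(2 * a * (n + 1)) + 2 * p - 2 * (η * C)) ∧
      -p + η * C + s * (-(2 * a * (n + 1)) + 2 * p - 2 * (η * C)) ≤ -p + η * C := by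
  have hηC : 0 < η * C := by positivity
  have hηC1 : η * C < 0.1 := by nlinarith
  have hs1 : s * (n + 1) < 0.2 := by linarith
  have hs2 : 0 < s * (n + 1) := by positivity
  have hsa : s * (n + 1) * a < 0.21 := by nlinarith
  have hsp : 0 < s * p := by positivity
  have hsc : s * (η * C) < 0.1 := by nlinarith
  constructor
  · have e : -p + η * C + s * (-(2 * a * (n + 1)) + 2 * p - 2 * (η * C)) =
      -p + η * C - 2 * (s * (n + 1) * a) + 2 * (s * p) - 2 * (s * (η * C)) := by ring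
    rw [e]
    linarith
  · have h1 : 1 < a * (n + 1) := by nlinarith
    have h2 : -(2 * a * (n + 1)) + 2 * p - 2 * (η * C) ≤ 0 := by linarith
    have h3 : s * (-(2 * a * (n + 1)) + 2 * p - 2 * (η * C)) ≤ 0 := mul_nonpos_of_nonneg_of_nonpos hs.le h2
    linarith

/-- the part of the segment with `F ≤ b p` and the centres `(2 a m, 2 b m)` -/
theorem near {a b v S C p η s n : ℝ} (ha : 0.99 < a) (ha2 : a < 1.01) (hb : 1.72 < b) (hb2 : b < 1.75)
    (hv : 0.1 < v) (hv2 : v < 0.11) (hS : 0.64 < S) (hS2 : S < 0.82) (hC : 0.66 < C) (hC2 : C ≤ 1)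
    (hp : p * S = v) (hn : 1 ≤ n) (hη : 0 < η) (hη2 : η * n < 0.1) (hs : 0 < s) (m : ℤ) :
    v < |(-p + η * C + s * (-(2 * a * (n + 1)) + 2 * p - 2 * (η * C))) - 2 * a * m| * S +
      |(-(η * S) + s * (-(2 * b * n) + 2 * (η * S))) - 2 * b * m| * C := by
  obtain ⟨hp0, hp1, hab, hκ, hκ0, hbp, -⟩ := base ha ha2 hb hb2 hv hv2 hS hS2 hC hC2 hp
  by_contra hcon
  push Not at hcon
  obtain ⟨hF, -⟩ := rhomb (by linarith) (by linarith) (by linarith) hab hp hcon
  have hF2 : s * (2 * b * (a - p) + 2 * (η * (b * C + a * S))) ≤ η * (b * C + a * S) := by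
    have e : -b * ((-p + η * C + s * (-(2 * a * (n + 1)) + 2 * p - 2 * (η * C))) - 2 * a * m) +
      a * ((-(η * S) + s * (-(2 * b * n) + 2 * (η * S))) - 2 * b * m) =
      b * p - η * (b * C + a * S) + s * (2 * b * (a - p) + 2 * (η * (b * C + a * S))) := by ring
    rw [e] at hF
    linarith
  obtain ⟨hsη, hsn, hη1⟩ := small hs hη hn hη2 hbp hκ hκ0 hF2
  obtain ⟨hxl, hxu⟩ := xbounds ha ha2 hp0 hp1 hs hn hsn hη hη1 (by linarith) hC2 hsη
  set x : ℝ := -p + η * C + s * (-(2 * a * (n + 1)) + 2 * p - 2 * (η * C)) with hx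
  set y : ℝ := -(η * S) + s * (-(2 * b * n) + 2 * (η * S)) with hy
  have hηC1 : η * C < 0.1 := by
    clear_value x y
    clear hF2 hF hcon hx hy hκ hκ0 hbp
    nlinarith
  have hY : 0 ≤ |y - 2 * b * m| * C := mul_nonneg (abs_nonneg _) (by linarith)
  have hbig : ∀ X : ℝ, 1 ≤ |X| → v < |X| * S := by
    intro X hX
    have : 1 * S ≤ |X| * S := mul_le_mul_of_nonneg_right hX (by linarith)
    linarith
  rcases lt_trichotomy m 0 with hm | hm | hm
  · have hm1 : (m : ℝ) ≤ -1 := by exact_mod_cast (show m ≤ -1 by omega)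
    have h0 : a * m ≤ a * (-1) := mul_le_mul_of_nonneg_left hm1 (by linarith)
    have h1 : 1 ≤ x - 2 * a * m := by linarith
    have h2 := hbig _ (h1.trans (le_abs_self (x - 2 * a * m)))
    linarith
  · subst hm
    have h1 : -x ≤ |x| := neg_le_abs x
    have h2 : -y ≤ |y| := neg_le_abs y
    simp only [Int.cast_zero, mul_zero, sub_zero] at hcon
    have h1' : -x * S ≤ |x| * S := mul_le_mul_of_nonneg_right h1 (by linarith)
    have h2' : -y * C ≤ |y| * C := mul_le_mul_of_nonneg_right h2 (by linarith)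
    have h4 : -x * S + -y * C = v + s * (2 * (a * (n + 1) * S) - 2 * v + 2 * (b * n * C)) := by
      rw [hx, hy, ← hp]; ring
    have h5 : 0 < 2 * (a * (n + 1) * S) - 2 * v + 2 * (b * n * C) := by
      have h6 : 0 < b * n * C := by positivity
      have h7 : 1 < a * (n + 1) := by
        clear_value x y
        nlinarith only [ha, hn]
      have h8 : 1 * S < a * (n + 1) * S := mul_lt_mul_of_pos_right h7 (by linarith)
      linarith
    have h9 := mul_pos hs h5
    linarith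
  · have hm1 : (1 : ℝ) ≤ m := by exact_mod_cast (show 1 ≤ m by omega)
    have h0 : a * 1 ≤ a * m := mul_le_mul_of_nonneg_left hm1 (by linarith)
    have h1 : 1 ≤ -(x - 2 * a * m) := by linarith
    have h2 := hbig _ (h1.trans (neg_le_abs (x - 2 * a * m)))
    linarith

/-- the coordinates of the points of the segment -/
theorem seg_re (a b v α η s : ℝ) (n : ℕ) :
    (vA v α η + s • (vB a b v α η n - vA v α η)).re =
      -(v / Real.sin α) + η * Real.cos α +
        s * (-(2 * a * (n + 1)) + 2 * (v / Real.sin α) - 2 * (η * Real.cos α)) := by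
  simp only [vA, vB, VV, Complex.add_re, Complex.sub_re, Complex.real_smul, Complex.mul_re, Complex.ofReal_re,
    Complex.ofReal_im]
  ring

theorem seg_im (a b v α η s : ℝ) (n : ℕ) :
    (vA v α η + s • (vB a b v α η n - vA v α η)).im =
      -(η * Real.sin α) + s * (-(2 * b * n) + 2 * (η * Real.sin α)) := by
  simp only [vA, vB, VV, Complex.add_im, Complex.sub_im, Complex.real_smul, Complex.mul_im, Complex.ofReal_re,
    Complex.ofReal_im]
  ring

/-- the bounds for the index -/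
theorem idx {b p κη q s ab k F : ℝ} (hs : 0 < s) (hs1 : s < 1) (hq : q = 2 * (ab - b * p))
    (hq0 : 0 < q) (hκ : 0 < κη) (hκ1 : κη < 0.3) (hab : 1.7 < ab)
    (hF : F = b * p - κη + s * (q + 2 * κη)) (h1 : F - 2 * ab * k ≤ b * p) (h2 : -(b * p) ≤ F - 2 * ab * k) :
    -1 < k ∧ k < 2 := by
  have h3 : 0 < s * (q + 2 * κη) := by positivity
  have h4 : s * (q + 2 * κη) < 1 * (q + 2 * κη) := mul_lt_mul_of_pos_right hs1 (by positivity)
  constructor
  · by_contra h
    push Not at h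
    have : ab * k ≤ ab * (-1) := mul_le_mul_of_nonneg_left h (by linarith)
    linarith
  · by_contra h
    push Not at h
    have : ab * 2 ≤ ab * k := mul_le_mul_of_nonneg_left h (by linarith)
    linarith

theorem main {a b v S C p η s : ℝ} (n : ℕ) (ha : 0.99 < a) (ha2 : a < 1.01) (hb : 1.72 < b) (hb2 : b < 1.75)
    (hv : 0.1 < v) (hv2 : v < 0.11) (hS : 0.64 < S) (hS2 : S < 0.82) (hC : 0.66 < C) (hC2 : C ≤ 1)
    (hp : p * S = v) (hn : (1 : ℝ) ≤ n) (hη : 0 < η) (hη2 : η * n < 0.1) (hs : 0 < s) (hs1 : s < 1) (i j : ℤ) :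
    v < |(-p + η * C + s * (-(2 * a * (n + 1)) + 2 * p - 2 * (η * C))) - 2 * a * i| * S +
      |(-(η * S) + s * (-(2 * b * n) + 2 * (η * S))) - 2 * b * j| * C := by
  obtain ⟨hp0, hp1, hab, hκ, hκ0, hbp, hab2⟩ := base ha ha2 hb hb2 hv hv2 hS hS2 hC hC2 hp
  by_contra hcon
  push Not at hcon
  obtain ⟨hF, hF'⟩ := rhomb (by linarith) (by linarith) (by linarith) hab hp hcon
  have hη1 : η < 0.1 := by nlinarith only [hη, hn, hη2]
  have hηκ : 0 < η * (b * C + a * S) := mul_pos hη hκ0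
  have hηκ1 : η * (b * C + a * S) < 0.3 := by nlinarith only [hη1, hη, hκ, hκ0]
  have e : -b * ((-p + η * C + s * (-(2 * a * (n + 1)) + 2 * p - 2 * (η * C))) - 2 * a * i) +
      a * ((-(η * S) + s * (-(2 * b * n) + 2 * (η * S))) - 2 * b * j) =
      (b * p - η * (b * C + a * S) + s * (2 * b * (a - p) + 2 * (η * (b * C + a * S)))) -
        2 * (a * b) * ((j - i : ℤ) : ℝ) := by push_cast; ring
  rw [e] at hF hF'
  obtain ⟨hk0, hk1⟩ := idx hs hs1 (by ring) (by linarith) hηκ hηκ1 hab2 rfl hF hF'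
  have hk0' : -1 < j - i := by exact_mod_cast hk0
  have hk1' : j - i < 2 := by exact_mod_cast hk1
  rcases (show j = i ∨ j = i + 1 by omega) with hj | hj
  · subst hj
    exact absurd hcon (not_le.2 (near ha ha2 hb hb2 hv hv2 hS hS2 hC hC2 hp hn hη hη2 hs j))
  · have h := near ha ha2 hb hb2 hv hv2 hS hS2 hC hC2 hp hn hη hη2 (s := 1 - s) (by linarith)
      (-((n : ℤ) + 1) - i)
    have e1 : -p + η * C + (1 - s) * (-(2 * a * ((n : ℝ) + 1)) + 2 * p - 2 * (η * C)) -
        2 * a * ((-((n : ℤ) + 1) - i : ℤ) : ℝ) =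
        -((-p + η * C + s * (-(2 * a * (n + 1)) + 2 * p - 2 * (η * C))) - 2 * a * i) := by
      push_cast; ring
    have e2 : -(η * S) + (1 - s) * (-(2 * b * (n : ℝ)) + 2 * (η * S)) -
        2 * b * ((-((n : ℤ) + 1) - i : ℤ) : ℝ) =
        -((-(η * S) + s * (-(2 * b * n) + 2 * (η * S))) - 2 * b * j) := by
      rw [hj]; push_cast; ring
    rw [e1, e2, abs_neg, abs_neg] at h
    exact absurd hcon (not_le.2 h)

theorem t_AV : S_AV := by
  rintro a b v α ⟨ha, ha2, hb, hb2, hv, hv2, hα, hα2⟩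
  refine ⟨0.1, by norm_num, 1, ?_⟩
  intro n hn η hη hη0 s hs hs1 i j
  obtain ⟨hS, hS2, hC, hC2⟩ := sc_bounds hα hα2
  have hn1 : (1 : ℝ) ≤ n := by exact_mod_cast hn
  have hηn : η * n < 0.1 := by
    rwa [lt_div_iff₀ (by linarith)] at hη0
  have hp : v / Real.sin α * Real.sin α = v := div_mul_cancel₀ _ (by linarith)
  rw [seg_re, seg_im]
  exact main n ha ha2 hb hb2 hv hv2 hS hS2 hC hC2 hp hn1 hη hηn hs hs1 i j

end Pool.Agent.U697.BM.AV
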