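import Pool.Agent.U856.BM.Stm2

/-!
# Project BM, package NE, first part: generic parameters and a lemma about lengths
-/

set_option autoImplicit false

open Set Filter Topology ComplexConjugate MeasureTheory

namespace Pool.Agent.U697.BM.NE

open Pool.Agent.U856.BM

/-- the ring generated by the algebraic numbers, `a` and `b` -/
noncomputable def RR (a b : ℝ) : Subalgebra (algebraicClosure ℚ ℝ) ℝ :=
  (MvPolynomial.aeval ![a, b] : MvPolynomial (Fin 2) (algebraicClosure ℚ ℝ) →ₐ[algebraicClosure ℚ ℝ] ℝ).range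

theorem alg_mem (a b : ℝ) {x : ℝ} (hx : IsAlgebraic ℚ x) : x ∈ RR a b := by
  have : x ∈ algebraicClosure ℚ ℝ := (mem_algebraicClosure_iff).2 hx
  exact (RR a b).algebraMap_mem ⟨x, this⟩

theorem a_mem (a b : ℝ) : a ∈ RR a b := ⟨MvPolynomial.X 0, by simp⟩

theorem b_mem (a b : ℝ) : b ∈ RR a b := ⟨MvPolynomial.X 1, by simp⟩

theorem gen3 {a b v : ℝ} (hg : Gen a b v) {x0 x1 x2 : ℝ} (h0 : x0 ∈ RR a b) (h1 : x1 ∈ RR a b)
    (h2 : x2 ∈ RR a b) (h : x0 + x1 * v + x2 * v ^ 2 = 0) : x0 = 0 ∧ x1 = 0 ∧ x2 = 0 := by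
  obtain ⟨P0, hP0⟩ := h0
  obtain ⟨P1, hP1⟩ := h1
  obtain ⟨P2, hP2⟩ := h2
  set P : MvPolynomial (Fin 3) (algebraicClosure ℚ ℝ) :=
    MvPolynomial.rename Fin.castSucc P0 + MvPolynomial.rename Fin.castSucc P1 * MvPolynomial.X 2 +
      MvPolynomial.rename Fin.castSucc P2 * MvPolynomial.X 2 ^ 2 with hP
  have hcomp : ∀ t : ℝ, (![a, b, t] ∘ Fin.castSucc : Fin 2 → ℝ) = ![a, b] := by
    intro t
    funext i
    fin_cases i <;> rfl
  have hev : ∀ t : ℝ, MvPolynomial.eval ![a, b, t] (MvPolynomial.map (algebraMap (algebraicClosure ℚ ℝ) ℝ) P) =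
      x0 + x1 * t + x2 * t ^ 2 := by
    intro t
    rw [MvPolynomial.eval_map, ← MvPolynomial.aeval_def, hP]
    simp only [map_add, map_mul, map_pow, MvPolynomial.aeval_X, MvPolynomial.aeval_rename, hcomp]
    have e0 : (MvPolynomial.aeval ![a, b]) P0 = x0 := hP0
    have e1 : (MvPolynomial.aeval ![a, b]) P1 = x1 := hP1
    have e2 : (MvPolynomial.aeval ![a, b]) P2 = x2 := hP2
    rw [e0, e1, e2]
    rfl
  have hz := hg (MvPolynomial.map (algebraMap (algebraicClosure ℚ ℝ) ℝ) P) (by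
    intro m
    rw [MvPolynomial.coeff_map]
    exact (mem_algebraicClosure_iff).1 (MvPolynomial.coeff m P).2) (by rw [hev]; exact h)
  have hall : ∀ t : ℝ, x0 + x1 * t + x2 * t ^ 2 = 0 := by
    intro t
    rw [← hev, hz, map_zero]
  have e0 := hall 0
  have e1 := hall 1
  have e2 := hall (-1)
  refine ⟨by linarith, by linarith, by linarith⟩

/-- lengths -/
theorem meas {κ : Type} (s : Finset κ) (lo hi : κ → ℝ) (P Q : ℝ) (hPQ : P ≤ Q) (hle : ∀ k ∈ s, lo k ≤ hi k)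
    (hsub : ∀ k ∈ s, ∀ u, lo k < u → u < hi k → P < u ∧ u < Q)
    (hdis : ∀ k ∈ s, ∀ k' ∈ s, k ≠ k' → ∀ u, lo k < u → u < hi k → lo k' < u → ¬ u < hi k')
    (hfin : {u : ℝ | P < u ∧ u < Q ∧ ¬ ∃ k ∈ s, lo k < u ∧ u < hi k}.Finite) :
    ∑ k ∈ s, (hi k - lo k) = Q - P := by
  have h1 : volume (⋃ k ∈ s, Ioo (lo k) (hi k)) = ∑ k ∈ s, volume (Ioo (lo k) (hi k)) := by
    refine measure_biUnion_finset ?_ (fun _ _ => measurableSet_Ioo)
    intro k hk k' hk' hne
    rw [Function.onFun, Set.disjoint_left]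
    rintro u ⟨hu1, hu2⟩ ⟨hu3, hu4⟩
    exact hdis k hk k' hk' hne u hu1 hu2 hu3 hu4
  have h2 : volume (⋃ k ∈ s, Ioo (lo k) (hi k)) = volume (Ioo P Q) := by
    apply le_antisymm
    · apply measure_mono
      intro u hu
      simp only [mem_iUnion] at hu
      obtain ⟨k, hk, hu1, hu2⟩ := hu
      exact hsub k hk u hu1 hu2
    · calc volume (Ioo P Q) ≤ volume ((⋃ k ∈ s, Ioo (lo k) (hi k)) ∪
            {u : ℝ | P < u ∧ u < Q ∧ ¬ ∃ k ∈ s, lo k < u ∧ u < hi k}) := by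
            apply measure_mono
            intro u hu
            by_cases h : ∃ k ∈ s, lo k < u ∧ u < hi k
            · left
              obtain ⟨k, hk, h3⟩ := h
              simp only [mem_iUnion]
              exact ⟨k, hk, h3⟩
            · right
              exact ⟨hu.1, hu.2, h⟩
        _ ≤ volume (⋃ k ∈ s, Ioo (lo k) (hi k)) +
            volume {u : ℝ | P < u ∧ u < Q ∧ ¬ ∃ k ∈ s, lo k < u ∧ u < hi k} := measure_union_le _ _
        _ = volume (⋃ k ∈ s, Ioo (lo k) (hi k)) := by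
            rw [hfin.measure_zero, add_zero]
  rw [h2] at h1
  simp only [Real.volume_Ioo] at h1
  rw [← ENNReal.ofReal_sum_of_nonneg (fun k hk => sub_nonneg.2 (hle k hk))] at h1
  have h3 : 0 ≤ ∑ k ∈ s, (hi k - lo k) := Finset.sum_nonneg (fun k hk => sub_nonneg.2 (hle k hk))
  exact ((ENNReal.ofReal_eq_ofReal_iff (sub_nonneg.2 hPQ) h3).1 h1).symm

/-- affine in `v` -/
def Aff (a b v x : ℝ) : Prop := ∃ x0 ∈ RR a b, ∃ x1 ∈ RR a b, x = x0 + x1 * v

theorem Aff.add {a b v x y : ℝ} (hx : Aff a b v x) (hy : Aff a b v y) : Aff a b v (x + y) := by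
  obtain ⟨x0, h0, x1, h1, rfl⟩ := hx
  obtain ⟨y0, g0, y1, g1, rfl⟩ := hy
  exact ⟨x0 + y0, add_mem h0 g0, x1 + y1, add_mem h1 g1, by ring⟩

theorem Aff.neg {a b v x : ℝ} (hx : Aff a b v x) : Aff a b v (-x) := by
  obtain ⟨x0, h0, x1, h1, rfl⟩ := hx
  exact ⟨-x0, neg_mem h0, -x1, neg_mem h1, by ring⟩

theorem Aff.sub {a b v x y : ℝ} (hx : Aff a b v x) (hy : Aff a b v y) : Aff a b v (x - y) := by
  rw [sub_eq_add_neg]; exact hx.add hy.neg

theorem Aff.mulR {a b v x y : ℝ} (hx : Aff a b v x) (hy : y ∈ RR a b) : Aff a b v (y * x) := by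
  obtain ⟨x0, h0, x1, h1, rfl⟩ := hx
  exact ⟨y * x0, mul_mem hy h0, y * x1, mul_mem hy h1, by ring⟩

theorem Aff.of {a b v x : ℝ} (hx : x ∈ RR a b) : Aff a b v x :=
  ⟨x, hx, 0, zero_mem _, by ring⟩

theorem Aff.v {a b v y : ℝ} (hy : y ∈ RR a b) : Aff a b v (y * v) :=
  ⟨0, zero_mem _, y, hy, by ring⟩

/-- `L x` affine in `v` -/
def QQ (a b v x : ℝ) : Prop := Aff a b v (√(a ^ 2 + b ^ 2) * x)

theorem QQ.add {a b v x y : ℝ} (hx : QQ a b v x) (hy : QQ a b v y) : QQ a b v (x + y) := by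
  unfold QQ; rw [mul_add]; exact Aff.add hx hy

theorem QQ.sub {a b v x y : ℝ} (hx : QQ a b v x) (hy : QQ a b v y) : QQ a b v (x - y) := by
  unfold QQ; rw [mul_sub]; exact Aff.sub hx hy

theorem QQ.zero {a b v : ℝ} : QQ a b v 0 := by
  unfold QQ; rw [mul_zero]; exact Aff.of (zero_mem _)

theorem QQ.max {a b v x y : ℝ} (hx : QQ a b v x) (hy : QQ a b v y) : QQ a b v (max x y) := by
  rcases max_choice x y with h | h <;> rw [h] <;> assumption

theorem QQ.min {a b v x y : ℝ} (hx : QQ a b v x) (hy : QQ a b v y) : QQ a b v (min x y) := by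
  rcases min_choice x y with h | h <;> rw [h] <;> assumption

/-- complex numbers with algebraic coordinates -/
theorem root_alg {w : ℂ} {n : ℕ} (hn : 0 < n) (hw : w ^ n = 1) : IsAlgebraic ℚ w.re ∧ IsAlgebraic ℚ w.im := by
  have key : ∀ w : ℂ, w ^ n = 1 → IsAlgebraic ℚ w := by
    intro w hw
    refine IsAlgebraic.of_pow hn ?_
    rw [hw]
    exact isAlgebraic_one
  have h1 := key w hw
  have h2 := key (conj w) (by rw [← map_pow, hw, map_one])
  have hI : IsAlgebraic ℚ Complex.I := by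
    refine IsAlgebraic.of_pow (n := 4) (by norm_num) ?_
    rw [Complex.I_pow_four]
    exact isAlgebraic_one
  have h22 : IsAlgebraic ℚ (2 : ℂ) := by
    have := isAlgebraic_natCast (R := ℚ) (A := ℂ) 2
    exact_mod_cast this
  have e1 : ((w.re : ℝ) : ℂ) = (w + conj w) * (2 : ℂ)⁻¹ := by
    apply Complex.ext
    · simp; ring
    · simp
  have e2 : ((w.im : ℝ) : ℂ) = (w - conj w) * (2 : ℂ)⁻¹ * Complex.I⁻¹ := by
    apply Complex.ext
    · simp; ring
    · simp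
  constructor
  · rw [← isAlgebraic_algebraMap_iff (algebraMap ℝ ℂ).injective]
    show IsAlgebraic ℚ ((w.re : ℝ) : ℂ)
    rw [e1]
    exact (h1.add h2).mul h22.inv
  · rw [← isAlgebraic_algebraMap_iff (algebraMap ℝ ℂ).injective]
    show IsAlgebraic ℚ ((w.im : ℝ) : ℂ)
    rw [e2]
    exact ((h1.sub h2).mul h22.inv).mul hI.inv

end Pool.Agent.U697.BM.NE
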