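import Pool.Agent.U697.BM.NE1

/-!
# Project BM, package NE, second part: the interval exchange
-/

set_option autoImplicit false

open Set Filter Topology ComplexConjugate MeasureTheory

namespace Pool.Agent.U697.BM.NE

open Pool.Agent.U856.BM Relation
open scoped Classical

/-- ends of the range -/
noncomputable def rmin (a b v α : ℝ) (i : St) : ℝ :=
  Finset.univ.inf' Finset.univ_nonempty (fun k : Fin 5 => uu a b i (vS a b v α k))

noncomputable def rmax (a b v α : ℝ) (i : St) : ℝ :=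
  Finset.univ.sup' Finset.univ_nonempty (fun k : Fin 5 => uu a b i (vS a b v α k))

theorem inR_iff {a b v α : ℝ} {i : St} {u : ℝ} :
    InR a b v α i u ↔ rmin a b v α i < u ∧ u < rmax a b v α i := by
  unfold InR rmin rmax
  rw [Finset.inf'_lt_iff, Finset.lt_sup'_iff]
  simp

/-- windows -/
noncomputable def wl (a b v α : ℝ) (i : St) (m : ℤ) : ℝ :=
  if C0 i then (2 * a * b * m - b * v / Real.sin α) / √(a ^ 2 + b ^ 2)
  else if m = 0 then rmin a b v α i else rmax a b v α i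

noncomputable def wr (a b v α : ℝ) (i : St) (m : ℤ) : ℝ :=
  if C0 i then (2 * a * b * m + b * v / Real.sin α) / √(a ^ 2 + b ^ 2) else rmax a b v α i

noncomputable def AA (a b v α : ℝ) (i : St) (m : ℤ) : ℝ := max (rmin a b v α i) (wl a b v α i m)

noncomputable def BB (a b v α : ℝ) (i : St) (m : ℤ) : ℝ :=
  max (AA a b v α i m) (min (rmax a b v α i) (wr a b v α i m))

/-- `u` is in the component `m` of the state `i` -/
def Cp (a b v α : ℝ) (i : St) (m : ℤ) (u : ℝ) : Prop := AA a b v α i m < u ∧ u < BB a b v α i m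

theorem comp_iff {a b v α : ℝ} {i : St} {m : ℤ} {u : ℝ} :
    Cp a b v α i m u ↔ InR a b v α i u ∧ wl a b v α i m < u ∧ u < wr a b v α i m := by
  unfold Cp
  rw [inR_iff]
  constructor
  · rintro ⟨h1, h2⟩
    have h3 := max_lt_iff.1 h1
    unfold BB at h2
    rcases lt_max_iff.1 h2 with h4 | h4
    · exact absurd h4 (not_lt.2 h1.le)
    · have h5 := lt_min_iff.1 h4
      exact ⟨⟨h3.1, h5.1⟩, h3.2, h5.2⟩
  · rintro ⟨⟨h1, h2⟩, h3, h4⟩
    exact ⟨max_lt h1 h3, lt_max_of_lt_right (lt_min h2 h4)⟩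

theorem L_pos {a b v α : ℝ} (hok : Ok a b v α) : 0 < √(a ^ 2 + b ^ 2) := by
  obtain ⟨ha, -⟩ := hok
  apply Real.sqrt_pos.2
  have : 0 < a := by linarith
  positivity

theorem L_sq (a b : ℝ) : √(a ^ 2 + b ^ 2) ^ 2 = a ^ 2 + b ^ 2 := Real.sq_sqrt (by positivity)

theorem win_iff {a b v α : ℝ} (hok : Ok a b v α) {i : St} (hC : C0 i) {m : ℤ} {u : ℝ} :
    (wl a b v α i m < u ∧ u < wr a b v α i m) ↔
      |√(a ^ 2 + b ^ 2) * u - 2 * a * b * m| < b * v / Real.sin α := by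
  have hL := L_pos hok
  simp only [wl, wr, if_pos hC]
  rw [div_lt_iff₀ hL, lt_div_iff₀ hL, abs_lt, mul_comm u]
  constructor
  · rintro ⟨h1, h2⟩
    constructor <;> linarith
  · rintro ⟨h1, h2⟩
    constructor <;> linarith

theorem m_zero {a b v α : ℝ} {i : St} (hC : ¬ C0 i) {m : ℤ} {u : ℝ} (h : Cp a b v α i m u) : m = 0 := by
  by_contra hm
  obtain ⟨h1, h2, -⟩ := comp_iff.1 h
  simp only [wl, if_neg hC, if_neg hm] at h2
  exact absurd (inR_iff.1 h1).2 (not_lt.2 h2.le)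

theorem sc_bounds {α : ℝ} (h1 : 0.75 < α) (h2 : α < 0.82) :
    0.64 < Real.sin α ∧ 0.66 < Real.cos α := by
  refine ⟨?_, ?_⟩
  · have h := Real.sin_gt_sub_cube (x := α) (by linarith)
    have h3 : α ^ 2 < 0.6724 := by nlinarith
    have h4 : α ^ 3 = α * α ^ 2 := by ring
    nlinarith
  · have h := Real.one_sub_sq_div_two_le_cos (x := α)
    have h3 : α ^ 2 < 0.6724 := by nlinarith
    linarith

theorem bp_lt {a b v α : ℝ} (hok : Ok a b v α) : b * v / Real.sin α < a * b := by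
  obtain ⟨ha, ha2, hb, hb2, hv, hv2, hα, hα2⟩ := hok
  obtain ⟨hS, -⟩ := sc_bounds hα hα2
  rw [div_lt_iff₀ (by linarith)]
  have h1 : v < a * Real.sin α := by nlinarith
  have h2 := mul_lt_mul_of_pos_left h1 (show 0 < b by linarith)
  linarith

theorem comp_unique {a b v α : ℝ} (hok : Ok a b v α) {i : St} {m m' : ℤ} {u : ℝ} (h : Cp a b v α i m u)
    (h' : Cp a b v α i m' u) : m = m' := by
  by_cases hC : C0 i
  · have h1 := (win_iff hok hC).1 (comp_iff.1 h).2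
    have h2 := (win_iff hok hC).1 (comp_iff.1 h').2
    have h3 := bp_lt hok
    have hab : 0 < a * b := by
      obtain ⟨ha, ha2, hb, hb2, -⟩ := hok
      exact mul_pos (by linarith) (by linarith)
    rw [abs_lt] at h1 h2
    have h4 : a * b * ((m : ℝ) - m') < a * b * 1 := by linarith
    have h5 : a * b * ((m' : ℝ) - m) < a * b * 1 := by linarith
    have h6 := lt_of_mul_lt_mul_left h4 hab.le
    have h7 := lt_of_mul_lt_mul_left h5 hab.le
    have h8 : m - m' < 1 := by exact_mod_cast h6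
    have h9 : m' - m < 1 := by exact_mod_cast h7
    omega
  · rw [m_zero hC h, m_zero hC h']

theorem exists_M {a b v α : ℝ} (hok : Ok a b v α) {q : ℕ} (hfin : Finite {i : St // Al q i}) :
    ∃ M : ℤ, ∀ i : St, Al q i → ∀ (m : ℤ) (u : ℝ), Cp a b v α i m u → m ∈ Finset.Icc (-M) M := by
  obtain ⟨B0, hB0⟩ := (Set.finite_range (fun p : {i : St // Al q i} × Fin 5 =>
    |√(a ^ 2 + b ^ 2) * uu a b p.1.1 (vS a b v α p.2)|)).bddAbove
  obtain ⟨M, hM⟩ := exists_nat_ge (B0 + a * b)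
  refine ⟨M, ?_⟩
  intro i hi m u h
  rw [Finset.mem_Icc]
  by_cases hC : C0 i
  · have h1 := (win_iff hok hC).1 (comp_iff.1 h).2
    have h3 := bp_lt hok
    have hL := L_pos hok
    have hab : 1 ≤ 2 * (a * b) := by
      obtain ⟨ha, ha2, hb, hb2, -⟩ := hok
      nlinarith
    obtain ⟨⟨k, hk⟩, ⟨k', hk'⟩⟩ := (comp_iff.1 h).1
    have g1 : |√(a ^ 2 + b ^ 2) * uu a b i (vS a b v α k)| ≤ B0 := hB0 ⟨(⟨i, hi⟩, k), rfl⟩
    have g2 : |√(a ^ 2 + b ^ 2) * uu a b i (vS a b v α k')| ≤ B0 := hB0 ⟨(⟨i, hi⟩, k'), rfl⟩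
    have g3 := mul_lt_mul_of_pos_left hk hL
    have g4 := mul_lt_mul_of_pos_left hk' hL
    rw [abs_le] at g1 g2
    rw [abs_lt] at h1
    have h4 : (2 * (a * b)) * (m : ℝ) ≤ M := by linarith
    have h5 : -(M : ℝ) ≤ (2 * (a * b)) * (m : ℝ) := by linarith
    have hM0 : (0 : ℝ) ≤ M := Nat.cast_nonneg M
    constructor
    · by_contra hcon
      push Not at hcon
      have h6 : (m : ℝ) < -(M : ℝ) := by exact_mod_cast hcon
      have h7 : (2 * (a * b)) * (m : ℝ) ≤ 1 * (m : ℝ) :=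
        mul_le_mul_of_nonpos_right hab (by linarith)
      linarith
    · by_contra hcon
      push Not at hcon
      have h6 : (M : ℝ) < (m : ℝ) := by exact_mod_cast hcon
      have h7 : 1 * (m : ℝ) ≤ (2 * (a * b)) * (m : ℝ) :=
        mul_le_mul_of_nonneg_right hab (by linarith)
      linarith
  · rw [m_zero hC h]
    constructor <;> omega

/-- points of components are not in `K0` -/
theorem comp_not {a b v α : ℝ} {h q : ℕ} (hKZ : S_KZ) (hR : Rat a b v α h q) {i : St} (hi : Al q i) {m : ℤ}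
    {u : ℝ} (hc : Cp a b v α i m u) : InR a b v α i u ∧ ¬ K0 a b v α (i, u) := by
  obtain ⟨h1, h2⟩ := comp_iff.1 hc
  refine ⟨h1, ?_⟩
  intro hK
  obtain ⟨hC, h3⟩ := (hKZ a b v α h q hR i u hi h1).1 hK
  exact absurd ((win_iff hR.1 hC).1 h2) (not_lt.2 (h3 m))

theorem exists_comp {a b v α : ℝ} {h q : ℕ} (hKZ : S_KZ) (hR : Rat a b v α h q) {i : St} (hi : Al q i)
    {u : ℝ} (h1 : InR a b v α i u) (h2 : ¬ K0 a b v α (i, u)) : ∃ m : ℤ, Cp a b v α i m u := by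
  by_cases hC : C0 i
  · have h3 : ¬ ∀ m : ℤ, b * v / Real.sin α ≤ |√(a ^ 2 + b ^ 2) * u - 2 * a * b * m| := by
      intro h3
      exact h2 ((hKZ a b v α h q hR i u hi h1).2 ⟨hC, h3⟩)
    push Not at h3
    obtain ⟨m, hm⟩ := h3
    exact ⟨m, comp_iff.2 ⟨h1, (win_iff hR.1 hC).2 hm⟩⟩
  · refine ⟨0, comp_iff.2 ⟨h1, ?_⟩⟩
    simp only [wl, wr, if_neg hC, if_true]
    exact inR_iff.1 h1

/-- the translation -/
noncomputable def cc (a b v α : ℝ) (i : St) (j : Fin 5) : ℝ :=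
  2 * oS a b v j * cr (dd a b) (G i (nS α j))

theorem K0_step {a b v α : ℝ} {h q : ℕ} (hEX : S_EX) (hR : Rat a b v α h q) {i : St} (hi : Al q i) {u : ℝ}
    {j : Fin 5} (hx : Exit a b v α i u j) (hK : K0 a b v α (rs α j i, u - cc a b v α i j)) :
    K0 a b v α (i, u) := by
  have hs : Stq a b v α (i, u) (rs α j i, u - cc a b v α i j) := ⟨j, hx, rfl⟩
  intro w hw
  rcases hw with hw | hw
  · rcases ReflTransGen.cases_head hw with h1 | ⟨z'', h1, h2⟩
    · rw [← h1]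
      exact hK (i, u) (Or.inr (ReflTransGen.single hs))
    · obtain ⟨j', hx', rfl⟩ := h1
      have hjj := (hEX a b v α h q hR i u hi).2.1 j j' hx hx'
      subst hjj
      exact hK w (Or.inl h2)
  · exact hK w (Or.inr (hw.tail hs))

/-- the piece is valid -/
def Vd (a b α : ℝ) (i : St) (j : Fin 5) (i' : St) : Prop :=
  0 < dt (dd a b) (G i (nS α j)) ∧ i' = rs α j i

noncomputable def lo (a b v α : ℝ) (i : St) (m : ℤ) (j : Fin 5) (i' : St) (m' : ℤ) : ℝ :=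
  if Vd a b α i j i' then
    max (max (AA a b v α i m) (min (uu a b i (vS a b v α j)) (uu a b i (vS a b v α (j + 1)))))
      (AA a b v α i' m' + cc a b v α i j)
  else 0

noncomputable def hi (a b v α : ℝ) (i : St) (m : ℤ) (j : Fin 5) (i' : St) (m' : ℤ) : ℝ :=
  if Vd a b α i j i' then
    max (lo a b v α i m j i' m')
      (min (min (BB a b v α i m) (max (uu a b i (vS a b v α j)) (uu a b i (vS a b v α (j + 1)))))
      (BB a b v α i' m' + cc a b v α i j))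
  else 0

theorem lo_le_hi (a b v α : ℝ) (i : St) (m : ℤ) (j : Fin 5) (i' : St) (m' : ℤ) :
    lo a b v α i m j i' m' ≤ hi a b v α i m j i' m' := by
  unfold hi
  split_ifs with h
  · exact le_max_left _ _
  · simp only [lo, if_neg h]; exact le_refl _

theorem piece_iff {a b v α : ℝ} {i : St} {m : ℤ} {j : Fin 5} {i' : St} {m' : ℤ} {u : ℝ} :
    (lo a b v α i m j i' m' < u ∧ u < hi a b v α i m j i' m') ↔
      i' = rs α j i ∧ Cp a b v α i m u ∧ Exit a b v α i u j ∧ Cp a b v α i' m' (u - cc a b v α i j) := by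
  by_cases hV : Vd a b α i j i'
  · simp only [hi, if_pos hV]
    constructor
    · rintro ⟨h1, h2⟩
      rcases lt_max_iff.1 h2 with h3 | h3
      · exact absurd h3 (not_lt.2 h1.le)
      simp only [lo, if_pos hV] at h1
      obtain ⟨h4, h5⟩ := max_lt_iff.1 h1
      obtain ⟨h6, h7⟩ := max_lt_iff.1 h4
      obtain ⟨h8, h9⟩ := lt_min_iff.1 h3
      obtain ⟨h10, h11⟩ := lt_min_iff.1 h8
      exact ⟨hV.2, ⟨h6, h10⟩, ⟨hV.1, h7, h11⟩, ⟨by linarith, by linarith⟩⟩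
    · rintro ⟨-, ⟨h6, h10⟩, ⟨-, h7, h11⟩, ⟨h5, h9⟩⟩
      refine ⟨?_, lt_max_of_lt_right (lt_min (lt_min h10 h11) (by linarith))⟩
      simp only [lo, if_pos hV]
      exact max_lt (max_lt h6 h7) (by linarith)
  · simp only [hi, lo, if_neg hV]
    constructor
    · rintro ⟨h1, h2⟩
      exact absurd h2 (not_lt.2 h1.le)
    · rintro ⟨h1, -, h2, -⟩
      exact absurd ⟨h2.1, h1⟩ hV

theorem piece_sub {a b v α : ℝ} {i : St} {m : ℤ} {j : Fin 5} {i' : St} {m' : ℤ}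
    (hlt : lo a b v α i m j i' m' < hi a b v α i m j i' m') :
    AA a b v α i m ≤ lo a b v α i m j i' m' ∧ hi a b v α i m j i' m' ≤ BB a b v α i m ∧
      AA a b v α i' m' ≤ lo a b v α i m j i' m' + -cc a b v α i j ∧
      hi a b v α i m j i' m' + -cc a b v α i j ≤ BB a b v α i' m' := by
  by_cases hV : Vd a b α i j i'
  · have h1 : hi a b v α i m j i' m' =
      (min (min (BB a b v α i m) (max (uu a b i (vS a b v α j)) (uu a b i (vS a b v α (j + 1)))))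
      (BB a b v α i' m' + cc a b v α i j)) := by
      have h2 : hi a b v α i m j i' m' = max (lo a b v α i m j i' m')
        (min (min (BB a b v α i m) (max (uu a b i (vS a b v α j)) (uu a b i (vS a b v α (j + 1)))))
        (BB a b v α i' m' + cc a b v α i j)) := by simp only [hi, if_pos hV]
      rw [h2] at hlt ⊢
      rcases lt_max_iff.1 hlt with h3 | h3
      · exact absurd h3 (lt_irrefl _)
      · exact max_eq_right h3.le
    have h4 : lo a b v α i m j i' m' =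
      max (max (AA a b v α i m) (min (uu a b i (vS a b v α j)) (uu a b i (vS a b v α (j + 1)))))
      (AA a b v α i' m' + cc a b v α i j) := by simp only [lo, if_pos hV]
    refine ⟨?_, ?_, ?_, ?_⟩
    · rw [h4]; exact (le_max_left _ _).trans (le_max_left _ _)
    · rw [h1]; exact (min_le_left _ _).trans (min_le_left _ _)
    · rw [h4]
      have := le_max_right (max (AA a b v α i m) (min (uu a b i (vS a b v α j)) (uu a b i (vS a b v α (j + 1)))))
        (AA a b v α i' m' + cc a b v α i j)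
      linarith
    · rw [h1]
      have := min_le_right (min (BB a b v α i m) (max (uu a b i (vS a b v α j)) (uu a b i (vS a b v α (j + 1)))))
        (BB a b v α i' m' + cc a b v α i j)
      linarith
  · simp only [hi, lo, if_neg hV] at hlt
    exact absurd hlt (lt_irrefl _)

/-- existence of the target component -/
theorem exists_piece {a b v α : ℝ} {h q : ℕ} (hEX : S_EX) (hKZ : S_KZ) (hR : Rat a b v α h q) {i : St}
    (hi0 : Al q i) {u : ℝ} {j : Fin 5} (hx : Exit a b v α i u j) (hn : ¬ K0 a b v α (i, u)) {m : ℤ}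
    (hm : Cp a b v α i m u) : Al q (rs α j i) ∧ ∃ m' : ℤ, Cp a b v α (rs α j i) m' (u - cc a b v α i j) ∧
      lo a b v α i m j (rs α j i) m' < u ∧ u < hi a b v α i m j (rs α j i) m' := by
  obtain ⟨h1, h2, h3⟩ := (hEX a b v α h q hR i u hi0).2.2.1 j hx
  refine ⟨h2, ?_⟩
  obtain ⟨m', hm'⟩ := exists_comp hKZ hR h2 h3 (fun hK => hn (K0_step hEX hR hi0 hx hK))
  exact ⟨m', hm', piece_iff.2 ⟨rfl, hm, hx, hm'⟩⟩

abbrev IX (q : ℕ) (M : ℤ) : Type := {i : St // Al q i} × {m : ℤ // m ∈ Finset.Icc (-M) M}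

/-- the relation -/
theorem relation {a b v α : ℝ} {h q : ℕ} (hEX : S_EX) (hKZ : S_KZ) (hIT : S_IT) (hR : Rat a b v α h q)
    {k0 : ℕ} {F : St × ℝ → ℂ} (hE : Eig a b v α q k0 F) [Fintype {i : St // Al q i}] (M : ℤ)
    (hM : ∀ i : St, Al q i → ∀ (m : ℤ) (u : ℝ), Cp a b v α i m u → m ∈ Finset.Icc (-M) M) :
    ∃ n : IX q M × Fin 5 × IX q M → ℤ, ∑ k : IX q M × Fin 5 × IX q M,
      (hi a b v α k.1.1.1 k.1.2.1 k.2.1 k.2.2.1.1 k.2.2.2.1 - lo a b v α k.1.1.1 k.1.2.1 k.2.1 k.2.2.1.1 k.2.2.2.1) *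
      (k0 * (2 * oS a b v k.2.1 * dt (dd a b) (G k.1.1.1 (nS α k.2.1))) / ll a b + n k) = 0 := by
  refine hIT (IX q M) (IX q M × Fin 5 × IX q M) (fun x => AA a b v α x.1.1 x.2.1) (fun x => BB a b v α x.1.1 x.2.1)
    (fun k => k.1) (fun k => k.2.2) (fun k => lo a b v α k.1.1.1 k.1.2.1 k.2.1 k.2.2.1.1 k.2.2.2.1)
    (fun k => hi a b v α k.1.1.1 k.1.2.1 k.2.1 k.2.2.1.1 k.2.2.2.1) (fun k => -cc a b v α k.1.1.1 k.2.1)
    (fun k => k0 * (2 * oS a b v k.2.1 * dt (dd a b) (G k.1.1.1 (nS α k.2.1))) / ll a b)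
    (fun x u => F (x.1.1, u)) ?_ ?_ ?_ ?_ ?_ ?_ ?_ ?_
  · intro x
    exact le_max_left _ _
  · intro k
    exact lo_le_hi _ _ _ _ _ _ _ _ _
  · intro k hk
    exact piece_sub hk
  · rintro ⟨⟨⟨i, hi0⟩, ⟨m, hm⟩⟩, j, ⟨⟨i', hi'⟩, ⟨m', hm'⟩⟩⟩ ⟨⟨⟨i2, hi2⟩, ⟨m2, hm2⟩⟩, j2, ⟨⟨i2', hi2'⟩, ⟨m2', hm2'⟩⟩⟩ u
      hne hs h1 h2 h3 h4
    simp only [Prod.mk.injEq, Subtype.mk.injEq] at hs
    obtain ⟨rfl, rfl⟩ := hs
    obtain ⟨g1, g2, g3, g4⟩ := piece_iff.1 ⟨h1, h2⟩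
    obtain ⟨g1', g2', g3', g4'⟩ := piece_iff.1 ⟨h3, h4⟩
    have hjj := (hEX a b v α h q hR i u hi0).2.1 j j2 g3 g3'
    simp only at g1 g1' g4 g4'
    subst hjj
    subst g1
    subst g1'
    have := comp_unique hR.1 g4 g4'
    subst this
    exact hne rfl
  · rintro ⟨⟨⟨i, hi0⟩, ⟨m, hm⟩⟩, j, ⟨⟨i', hi'⟩, ⟨m', hm'⟩⟩⟩ ⟨⟨⟨i2, hi2⟩, ⟨m2, hm2⟩⟩, j2, ⟨⟨i2', hi2'⟩, ⟨m2', hm2'⟩⟩⟩ u
      hne hs h1 h2 h3 h4
    simp only [Prod.mk.injEq, Subtype.mk.injEq] at hs
    obtain ⟨rfl, rfl⟩ := hs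
    simp only at h1 h2 h3 h4
    have hp1 : lo a b v α i m j i' m' < u + cc a b v α i j ∧ u + cc a b v α i j < hi a b v α i m j i' m' :=
      ⟨by linarith, by linarith⟩
    have hp2 : lo a b v α i2 m2 j2 i' m' < u + cc a b v α i2 j2 ∧
      u + cc a b v α i2 j2 < hi a b v α i2 m2 j2 i' m' := ⟨by linarith, by linarith⟩
    obtain ⟨g1, g2, g3, g4⟩ := piece_iff.1 hp1
    obtain ⟨g1', g2', g3', g4'⟩ := piece_iff.1 hp2
    have e1 : Stq a b v α (i, u + cc a b v α i j) (i', u) := by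
      refine ⟨j, g3, ?_⟩
      rw [g1]
      refine Prod.ext rfl ?_
      show u = u + cc a b v α i j - cc a b v α i j
      ring
    have e2 : Stq a b v α (i2, u + cc a b v α i2 j2) (i', u) := by
      refine ⟨j2, g3', ?_⟩
      rw [g1']
      refine Prod.ext rfl ?_
      show u = u + cc a b v α i2 j2 - cc a b v α i2 j2
      ring
    have e3 := (hEX a b v α h q hR i' u hi').2.2.2.2.2.1 _ _ e1 e2
    simp only [Prod.mk.injEq] at e3
    obtain ⟨e4, e5⟩ := e3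
    subst e4
    rw [← e5] at g3' g2'
    have hjj := (hEX a b v α h q hR i _ hi0).2.1 j j2 g3 g3'
    subst hjj
    have := comp_unique hR.1 g2 g2'
    subst this
    exact hne rfl
  · refine (Set.finite_range (fun p : IX q M × Fin 5 => (p.1, uu a b p.1.1.1 (vS a b v α p.2)))).subset ?_
    rintro ⟨⟨⟨i, hi0⟩, ⟨m, hm⟩⟩, u⟩ ⟨h1, h2, h3⟩
    simp only at h1 h2 h3
    have hc : Cp a b v α i m u := ⟨h1, h2⟩
    obtain ⟨hin, hnK⟩ := comp_not hKZ hR hi0 hc
    rcases (hEX a b v α h q hR i u hi0).1 hin with ⟨j, hj⟩ | ⟨k, hk⟩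
    · exfalso
      obtain ⟨g1, m', g2, g3⟩ := exists_piece hEX hKZ hR hi0 hj hnK hc
      exact h3 ⟨((⟨i, hi0⟩, ⟨m, hm⟩), j, (⟨rs α j i, g1⟩, ⟨m', hM _ g1 _ _ g2⟩)), rfl, g3⟩
    · exact ⟨((⟨i, hi0⟩, ⟨m, hm⟩), k), by simp only [Prod.mk.injEq, true_and]; exact hk.1.symm⟩
  · rintro ⟨⟨i, hi0⟩, ⟨m, hm⟩⟩ u h1 h2
    obtain ⟨hin, hnK⟩ := comp_not hKZ hR hi0 (show Cp a b v α i m u from ⟨h1, h2⟩)
    exact ⟨hE.1 (i, u) hi0 hin hnK, hE.2.1 i u hi0 hin hnK⟩
  · rintro ⟨⟨⟨i, hi0⟩, ⟨m, hm⟩⟩, j, ⟨⟨i', hi'⟩, ⟨m', hm'⟩⟩⟩ u h1 h2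
    obtain ⟨g1, g2, g3, g4⟩ := piece_iff.1 ⟨h1, h2⟩
    simp only at g1 g2 g3 g4 ⊢
    obtain ⟨hin, hnK⟩ := comp_not hKZ hR hi0 g2
    have := hE.2.2 (i, u, 0) (rs α j i, u - 2 * oS a b v j * cr (dd a b) (G i (nS α j)),
      0 + 2 * oS a b v j * dt (dd a b) (G i (nS α j))) hi0 hnK ⟨j, g3, rfl⟩
    simp only at this
    rw [g1]
    have e : u + -cc a b v α i j = u - 2 * oS a b v j * cr (dd a b) (G i (nS α j)) := by
      unfold cc; ring
    rw [e, this]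
    congr 2
    push_cast
    ring

end Pool.Agent.U697.BM.NE
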