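import Pool.Agent.U697.BM.NE2

/-!
# Project BM, package NE, third part: the end points are affine in `v`
-/

set_option autoImplicit false

open Set Filter Topology ComplexConjugate MeasureTheory

namespace Pool.Agent.U697.BM.NE

open Pool.Agent.U856.BM Relation
open scoped Classical

/-- sine and cosine are algebraic -/
theorem sc_alg {α : ℝ} {h q : ℕ} (hq : 0 < q) (hα : α = Real.pi * h / q) :
    IsAlgebraic ℚ (Real.sin α) ∧ IsAlgebraic ℚ (Real.cos α) := by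
  have hw : Complex.exp ((α : ℂ) * Complex.I) ^ (2 * q) = 1 := by
    rw [← Complex.exp_nat_mul]
    have hq' : (q : ℂ) ≠ 0 := by exact_mod_cast hq.ne'
    have : ((2 * q : ℕ) : ℂ) * ((α : ℂ) * Complex.I) = ((h : ℤ) : ℂ) * (2 * Real.pi * Complex.I) := by
      rw [hα]
      push_cast
      field_simp
    rw [this, Complex.exp_int_mul_two_pi_mul_I]
  have h1 := root_alg (by omega) hw
  rw [Complex.exp_ofReal_mul_I_re, Complex.exp_ofReal_mul_I_im] at h1
  exact ⟨h1.2, h1.1⟩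

theorem G_mem {a b : ℝ} {i : St} {x : ℂ} (h1 : i.1.re ∈ RR a b) (h2 : i.1.im ∈ RR a b) (h3 : x.re ∈ RR a b)
    (h4 : x.im ∈ RR a b) : (G i x).re ∈ RR a b ∧ (G i x).im ∈ RR a b := by
  obtain ⟨w, t⟩ := i
  cases t
  · simp only [G, Bool.false_eq_true, if_false, Complex.mul_re, Complex.mul_im, Complex.conj_re, Complex.conj_im]
    exact ⟨sub_mem (mul_mem h1 h3) (mul_mem h2 (neg_mem h4)), add_mem (mul_mem h1 (neg_mem h4)) (mul_mem h2 h3)⟩
  · simp only [G, if_true, Complex.mul_re, Complex.mul_im]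
    exact ⟨sub_mem (mul_mem h1 h3) (mul_mem h2 h4), add_mem (mul_mem h1 h4) (mul_mem h2 h3)⟩

theorem G_aff {a b v : ℝ} {i : St} {x : ℂ} (h1 : i.1.re ∈ RR a b) (h2 : i.1.im ∈ RR a b) (h3 : Aff a b v x.re)
    (h4 : Aff a b v x.im) : Aff a b v (G i x).re ∧ Aff a b v (G i x).im := by
  obtain ⟨w, t⟩ := i
  cases t
  · simp only [G, Bool.false_eq_true, if_false, Complex.mul_re, Complex.mul_im, Complex.conj_re, Complex.conj_im]
    exact ⟨(h3.mulR h1).sub (h4.neg.mulR h2), (h4.neg.mulR h1).add (h3.mulR h2)⟩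
  · simp only [G, if_true, Complex.mul_re, Complex.mul_im]
    exact ⟨(h3.mulR h1).sub (h4.mulR h2), (h4.mulR h1).add (h3.mulR h2)⟩

theorem al_mem {a b : ℝ} {q : ℕ} (hq : 0 < q) {i : St} (hi : Al q i) : i.1.re ∈ RR a b ∧ i.1.im ∈ RR a b := by
  have := root_alg (by omega) (show i.1 ^ (2 * q) = 1 from hi)
  exact ⟨alg_mem a b this.1, alg_mem a b this.2⟩

theorem sc_mem {a b v α : ℝ} {h q : ℕ} (hR : Rat a b v α h q) :
    Real.sin α ∈ RR a b ∧ Real.cos α ∈ RR a b ∧ (Real.sin α)⁻¹ ∈ RR a b ∧ (Real.cos α)⁻¹ ∈ RR a b := by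
  have := sc_alg hR.2.2.1.pos hR.2.2.2.2
  exact ⟨alg_mem a b this.1, alg_mem a b this.2, alg_mem a b this.1.inv, alg_mem a b this.2.inv⟩

theorem nS_mem {a b v α : ℝ} {h q : ℕ} (hR : Rat a b v α h q) (j : Fin 5) :
    (nS α j).re ∈ RR a b ∧ (nS α j).im ∈ RR a b := by
  obtain ⟨h1, h2, -, -⟩ := sc_mem hR
  have z0 : (0 : ℝ) ∈ RR a b := zero_mem _
  have z1 : (1 : ℝ) ∈ RR a b := one_mem _
  fin_cases j
  · show ((-1 : ℂ)).re ∈ RR a b ∧ ((-1 : ℂ)).im ∈ RR a b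
    simp [z0, z1]
  · show ((-Complex.I : ℂ)).re ∈ RR a b ∧ ((-Complex.I : ℂ)).im ∈ RR a b
    simp [z0, z1]
  · show ((1 : ℂ)).re ∈ RR a b ∧ ((1 : ℂ)).im ∈ RR a b
    simp [z0, z1]
  · show Real.sin α ∈ RR a b ∧ Real.cos α ∈ RR a b
    exact ⟨h1, h2⟩
  · show ((Complex.I : ℂ)).re ∈ RR a b ∧ ((Complex.I : ℂ)).im ∈ RR a b
    simp [z0, z1]

theorem gn_mem {a b v α : ℝ} {h q : ℕ} (hR : Rat a b v α h q) {i : St} (hi : Al q i) (j : Fin 5) :
    (G i (nS α j)).re ∈ RR a b ∧ (G i (nS α j)).im ∈ RR a b := by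
  obtain ⟨h1, h2⟩ := al_mem (a := a) (b := b) hR.2.2.1.pos hi
  obtain ⟨h3, h4⟩ := nS_mem hR j
  exact G_mem h1 h2 h3 h4

theorem vS_aff {a b v α : ℝ} {h q : ℕ} (hR : Rat a b v α h q) (k : Fin 5) :
    Aff a b v (vS a b v α k).re ∧ Aff a b v (vS a b v α k).im := by
  obtain ⟨-, -, h3, h4⟩ := sc_mem hR
  have z0 : Aff a b v (0 : ℝ) := Aff.of (zero_mem _)
  have za : Aff a b v (-a) := (Aff.of (a_mem a b)).neg
  have zb : Aff a b v (-b) := (Aff.of (b_mem a b)).neg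
  have zs : Aff a b v (-(v / Real.sin α)) := by
    rw [div_eq_inv_mul]; exact (Aff.v h3).neg
  have zc : Aff a b v (-(v / Real.cos α)) := by
    rw [div_eq_inv_mul]; exact (Aff.v h4).neg
  fin_cases k
  · exact ⟨za, z0⟩
  · exact ⟨za, zb⟩
  · exact ⟨z0, zb⟩
  · exact ⟨z0, zc⟩
  · exact ⟨zs, z0⟩

theorem oS_aff (a b v : ℝ) (j : Fin 5) : Aff a b v (oS a b v j) := by
  have z0 : Aff a b v (0 : ℝ) := Aff.of (zero_mem _)
  fin_cases j
  · exact Aff.of (a_mem a b)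
  · exact Aff.of (b_mem a b)
  · exact z0
  · show Aff a b v (-v)
    have := (Aff.v (a := a) (b := b) (v := v) (y := 1) (one_mem _)).neg
    rwa [one_mul] at this
  · exact z0

theorem Lcr {a b : ℝ} (hL : 0 < √(a ^ 2 + b ^ 2)) (z : ℂ) :
    √(a ^ 2 + b ^ 2) * cr (dd a b) z = a * z.im - b * z.re := by
  unfold cr dd
  simp only
  field_simp

theorem Ldt {a b : ℝ} (hL : 0 < √(a ^ 2 + b ^ 2)) (z : ℂ) :
    √(a ^ 2 + b ^ 2) * dt (dd a b) z = a * z.re + b * z.im := by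
  unfold dt dd
  simp only
  field_simp

theorem uu_QQ {a b v α : ℝ} {h q : ℕ} (hR : Rat a b v α h q) {i : St} (hi : Al q i) (k : Fin 5) :
    QQ a b v (uu a b i (vS a b v α k)) := by
  unfold QQ uu
  rw [Lcr (L_pos hR.1)]
  obtain ⟨h1, h2⟩ := al_mem (a := a) (b := b) hR.2.2.1.pos hi
  obtain ⟨h3, h4⟩ := vS_aff hR k
  obtain ⟨h5, h6⟩ := G_aff h1 h2 h3 h4
  exact (h6.mulR (a_mem a b)).sub (h5.mulR (b_mem a b))

theorem cc_QQ {a b v α : ℝ} {h q : ℕ} (hR : Rat a b v α h q) {i : St} (hi : Al q i) (j : Fin 5) :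
    QQ a b v (cc a b v α i j) := by
  unfold QQ cc
  obtain ⟨h1, h2⟩ := gn_mem hR hi j
  have e : √(a ^ 2 + b ^ 2) * (2 * oS a b v j * cr (dd a b) (G i (nS α j))) =
      (a * (G i (nS α j)).im - b * (G i (nS α j)).re) * (oS a b v j + oS a b v j) := by
    rw [← Lcr (L_pos hR.1)]; ring
  rw [e]
  exact ((oS_aff a b v j).add (oS_aff a b v j)).mulR
    (sub_mem (mul_mem (a_mem a b) h2) (mul_mem (b_mem a b) h1))

theorem rmin_QQ {a b v α : ℝ} {h q : ℕ} (hR : Rat a b v α h q) {i : St} (hi : Al q i) :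
    QQ a b v (rmin a b v α i) := by
  obtain ⟨k, -, hk⟩ := Finset.exists_mem_eq_inf' (Finset.univ_nonempty (α := Fin 5))
    (fun k : Fin 5 => uu a b i (vS a b v α k))
  unfold rmin
  rw [hk]
  exact uu_QQ hR hi k

theorem rmax_QQ {a b v α : ℝ} {h q : ℕ} (hR : Rat a b v α h q) {i : St} (hi : Al q i) :
    QQ a b v (rmax a b v α i) := by
  obtain ⟨k, -, hk⟩ := Finset.exists_mem_eq_sup' (Finset.univ_nonempty (α := Fin 5))
    (fun k : Fin 5 => uu a b i (vS a b v α k))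
  unfold rmax
  rw [hk]
  exact uu_QQ hR hi k

theorem int_mem (a b : ℝ) (m : ℤ) : (m : ℝ) ∈ RR a b := by
  have := intCast_mem (RR a b) m
  exact this

theorem wl_QQ {a b v α : ℝ} {h q : ℕ} (hR : Rat a b v α h q) {i : St} (hi : Al q i) (m : ℤ) :
    QQ a b v (wl a b v α i m) := by
  unfold wl
  split_ifs with h1 h2
  · unfold QQ
    rw [mul_div_cancel₀ _ (L_pos hR.1).ne']
    obtain ⟨-, -, h3, -⟩ := sc_mem hR
    have e : b * v / Real.sin α = (b * (Real.sin α)⁻¹) * v := by ring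
    have e2 : 2 * a * b * (m : ℝ) = (a * b * m) + (a * b * m) := by ring
    rw [e, e2]
    have h4 : a * b * m ∈ RR a b := mul_mem (mul_mem (a_mem a b) (b_mem a b)) (int_mem a b m)
    exact (Aff.of (add_mem h4 h4)).sub (Aff.v (mul_mem (b_mem a b) h3))
  · exact rmin_QQ hR hi
  · exact rmax_QQ hR hi

theorem wr_QQ {a b v α : ℝ} {h q : ℕ} (hR : Rat a b v α h q) {i : St} (hi : Al q i) (m : ℤ) :
    QQ a b v (wr a b v α i m) := by
  unfold wr
  split_ifs with h1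
  · unfold QQ
    rw [mul_div_cancel₀ _ (L_pos hR.1).ne']
    obtain ⟨-, -, h3, -⟩ := sc_mem hR
    have e : b * v / Real.sin α = (b * (Real.sin α)⁻¹) * v := by ring
    have e2 : 2 * a * b * (m : ℝ) = (a * b * m) + (a * b * m) := by ring
    rw [e, e2]
    have h4 : a * b * m ∈ RR a b := mul_mem (mul_mem (a_mem a b) (b_mem a b)) (int_mem a b m)
    exact (Aff.of (add_mem h4 h4)).add (Aff.v (mul_mem (b_mem a b) h3))
  · exact rmax_QQ hR hi

theorem AA_QQ {a b v α : ℝ} {h q : ℕ} (hR : Rat a b v α h q) {i : St} (hi : Al q i) (m : ℤ) :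
    QQ a b v (AA a b v α i m) := (rmin_QQ hR hi).max (wl_QQ hR hi m)

theorem BB_QQ {a b v α : ℝ} {h q : ℕ} (hR : Rat a b v α h q) {i : St} (hi : Al q i) (m : ℤ) :
    QQ a b v (BB a b v α i m) := (AA_QQ hR hi m).max ((rmax_QQ hR hi).min (wr_QQ hR hi m))

theorem lo_QQ {a b v α : ℝ} {h q : ℕ} (hR : Rat a b v α h q) {i : St} (hi : Al q i) (m : ℤ) (j : Fin 5)
    {i' : St} (hi' : Al q i') (m' : ℤ) : QQ a b v (lo a b v α i m j i' m') := by
  unfold lo
  split_ifs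
  · exact ((AA_QQ hR hi m).max ((uu_QQ hR hi _).min (uu_QQ hR hi _))).max ((AA_QQ hR hi' m').add (cc_QQ hR hi j))
  · exact QQ.zero

theorem hi_QQ {a b v α : ℝ} {h q : ℕ} (hR : Rat a b v α h q) {i : St} (hi0 : Al q i) (m : ℤ) (j : Fin 5)
    {i' : St} (hi' : Al q i') (m' : ℤ) : QQ a b v (hi a b v α i m j i' m') := by
  unfold hi
  split_ifs
  · exact (lo_QQ hR hi0 m j hi' m').max (((BB_QQ hR hi0 m).min ((uu_QQ hR hi0 _).max (uu_QQ hR hi0 _))).min
      ((BB_QQ hR hi' m').add (cc_QQ hR hi0 j)))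
  · exact QQ.zero

/-- the reflection in the cut leaves class zero -/
theorem not_C0 {a b v α : ℝ} (hok : Ok a b v α) {i : St} (h1 : C0 i) : ¬ C0 (rs α 3 i) := by
  intro h2
  obtain ⟨ha, ha2, hb, hb2, hv, hv2, hα, hα2⟩ := hok
  obtain ⟨hS, hC⟩ := sc_bounds hα hα2
  have hn : nS α 3 = ⟨Real.sin α, Real.cos α⟩ := rfl
  have him : (nS α 3 ^ 2).im = 2 * (Real.sin α * Real.cos α) := by
    rw [hn, sq, Complex.mul_im]; ring
  have hpos : 0 < Real.sin α * Real.cos α := mul_pos (by linarith) (by linarith)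
  have key : ∀ z : ℂ, z ^ 2 = 1 → z.im = 0 := by
    intro z hz
    have : (z - 1) * (z + 1) = 0 := by linear_combination hz
    rcases mul_eq_zero.1 this with h3 | h3
    · have : z = 1 := by linear_combination h3
      rw [this]; simp
    · have : z = -1 := by linear_combination h3
      rw [this]; simp
  have h1' : i.1 ^ 2 = 1 := h1
  have h2' : (-(i.1 * (if i.2 then (nS α 3) ^ 2 else conj ((nS α 3) ^ 2)))) ^ 2 = 1 := h2
  have h3 : (if i.2 then (nS α 3) ^ 2 else conj ((nS α 3) ^ 2)) ^ 2 = 1 := by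
    have e : (-(i.1 * (if i.2 then (nS α 3) ^ 2 else conj ((nS α 3) ^ 2)))) ^ 2 =
      i.1 ^ 2 * (if i.2 then (nS α 3) ^ 2 else conj ((nS α 3) ^ 2)) ^ 2 := by ring
    rw [e, h1', one_mul] at h2'
    exact h2'
  have h4 := key _ h3
  split_ifs at h4 with h5
  · rw [him] at h4
    linarith
  · rw [Complex.conj_im, him] at h4
    linarith

/-- the length of the exits through the cut -/
theorem exit_len {a b v α : ℝ} (hok : Ok a b v α) {i : St} (hD : 0 < dt (dd a b) (G i (nS α 3))) :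
    √(a ^ 2 + b ^ 2) * (max (uu a b i (vS a b v α 3)) (uu a b i (vS a b v α (3 + 1))) -
      min (uu a b i (vS a b v α 3)) (uu a b i (vS a b v α (3 + 1)))) =
      ((a * (G i (nS α 3)).re + b * (G i (nS α 3)).im) * ((Real.sin α)⁻¹ * (Real.cos α)⁻¹)) * v := by
  have hL := L_pos hok
  obtain ⟨ha, ha2, hb, hb2, hv, hv2, hα, hα2⟩ := hok
  obtain ⟨hS, hC⟩ := sc_bounds hα hα2
  have hS0 : Real.sin α ≠ 0 := by linarith
  have hC0 : Real.cos α ≠ 0 := by linarith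
  have hn : nS α 3 = ⟨Real.sin α, Real.cos α⟩ := rfl
  have hv3 : vS a b v α 3 = ⟨0, -(v / Real.cos α)⟩ := rfl
  have hv4 : vS a b v α (3 + 1) = ⟨-(v / Real.sin α), 0⟩ := rfl
  have hD' : 0 < a * (G i (nS α 3)).re + b * (G i (nS α 3)).im := by
    rw [← Ldt hL]; exact mul_pos hL hD
  rw [max_sub_min_eq_abs']
  have e0 : √(a ^ 2 + b ^ 2) * |uu a b i (vS a b v α 3) - uu a b i (vS a b v α (3 + 1))| =
      |√(a ^ 2 + b ^ 2) * uu a b i (vS a b v α 3) - √(a ^ 2 + b ^ 2) * uu a b i (vS a b v α (3 + 1))| := by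
    rw [← mul_sub, abs_mul, abs_of_pos hL]
  rw [e0]
  unfold uu
  rw [Lcr hL, Lcr hL, hv3, hv4]
  rw [hn] at hD' ⊢
  have hpos : 0 < ((a * (G i ⟨Real.sin α, Real.cos α⟩).re + b * (G i ⟨Real.sin α, Real.cos α⟩).im) *
    ((Real.sin α)⁻¹ * (Real.cos α)⁻¹)) * v := by
    have h1 : 0 < (Real.sin α)⁻¹ * (Real.cos α)⁻¹ := mul_pos (inv_pos.2 (by linarith)) (inv_pos.2 (by linarith))
    exact mul_pos (mul_pos hD' h1) (by linarith)
  rw [← abs_of_pos hpos]
  obtain ⟨w, t⟩ := i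
  cases t
  · congr 1
    simp only [G, Bool.false_eq_true, if_false, Complex.mul_re, Complex.mul_im, Complex.conj_re, Complex.conj_im]
    field_simp
    ring
  · rw [← abs_neg]
    congr 1
    simp only [G, if_true, Complex.mul_re, Complex.mul_im]
    field_simp
    ring

end Pool.Agent.U697.BM.NE
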